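import Pool.Agent.helper99.IT.Spec

set_option autoImplicit false

namespace Pool.Agent.IT

theorem ORB : ORB_stmt := by
  intro a b E c ha hb hab
  induction E with
  | zero => exact ⟨fun _ => 0, fun i hi => absurd hi (Nat.not_lt_zero i)⟩
  | succ E ih =>
    obtain ⟨h, hh⟩ := ih
    have hcop : IsCoprime ((b : ℤ) ^ (E + 1)) (a : ℤ) := by
      have h1 : IsCoprime (a : ℤ) (b : ℤ) := Nat.isCoprime_iff_coprime.2 hab
      exact h1.symm.pow_left
    obtain ⟨u, v, huv⟩ := hcop
    -- `k = -(b h_E + c) u`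
    have hk : (a : ℤ) ∣ b * (h E + (-(b * h E + c) * u) * (b : ℤ) ^ E) + c := by
      refine ⟨(b * h E + c) * v, ?_⟩
      have h2 : (b : ℤ) * (h E + (-(b * h E + c) * u) * (b : ℤ) ^ E) + c =
          (b * h E + c) * (1 - u * (b : ℤ) ^ (E + 1)) := by
        rw [pow_succ]
        ring
      rw [h2, ← huv]
      ring
    obtain ⟨w, hw⟩ := hk
    refine ⟨fun i => if i ≤ E then h i + (-(b * h E + c) * u) * ((a : ℤ) ^ (E - i) * (b : ℤ) ^ i) else w, fun i hi => ?_⟩
    rcases Nat.lt_or_ge i E with h3 | h3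
    · have h4 : i + 1 ≤ E := h3
      have h5 : i ≤ E := h3.le
      simp only [if_pos h4, if_pos h5]
      have h6 : E - i = (E - (i + 1)) + 1 := by omega
      rw [mul_add, hh i h3, h6, pow_succ (a : ℤ), pow_succ (b : ℤ)]
      ring
    · have h4 : i = E := by omega
      subst h4
      simp only [le_refl, if_true, Nat.not_succ_le_self, if_false, Nat.sub_self, pow_zero, one_mul]
      rw [← hw]

end Pool.Agent.IT
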